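import Pool.Agent.R831.MonId

/-!
# Powers of weighted edge ideals: `I²` Cohen-Macaulay and `I⁴` unmixed do not imply
`I⁴` Cohen-Macaulay

`G` is the path `x₁ x₂ x₃` with a whisker `x_i y_i` at every vertex; the two path edges have
weight one, the whiskers weight two.
-/

set_option linter.unusedSimpArgs false
set_option linter.style.haveILetI false
set_option linter.unusedTactic false

namespace Pool.Agent.Results.MP_23c7c4_al.UnmixedNotCM

open MvPolynomial R831.MonId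

/-- The weighted edge ideal `I(G_ω) = ((uv)^{ω(uv)} : uv ∈ E(G))` in `K[V(G)]`. -/
noncomputable def wideal (K : Type*) [Field K] {V : Type*} (G : SimpleGraph V)
    (ω : Sym2 V → ℕ) : Ideal (MvPolynomial V K) :=
  Ideal.span {f | ∃ u v : V, G.Adj u v ∧ f = (X u * X v) ^ ω s(u, v)}

/-- A graph is very well-covered: no isolated vertices, an even number of vertices, and every
independent set which is maximal under inclusion contains exactly half of the vertices. -/
structure VeryWellCovered {V : Type*} [Fintype V] (G : SimpleGraph V) : Prop where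
  /-- no isolated vertices -/
  no_isolated : ∀ u, ∃ v, G.Adj u v
  /-- evenly many vertices -/
  even : Even (Fintype.card V)
  /-- maximal independent sets have `|V|/2` elements -/
  card_eq : ∀ S : Finset V, Maximal (fun T : Finset V => ∀ u ∈ T, ∀ v ∈ T, ¬ G.Adj u v) S →
    2 * S.card = Fintype.card V

/-- The graded ring `R/J` is Cohen-Macaulay (`J` homogeneous): there is a homogeneous system of
parameters (a sequence of homogeneous elements of positive degree generating an ideal of finite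
colength modulo `J`) which is a regular sequence on `R/J`. -/
def IsCM {V K : Type*} [Field K] (J : Ideal (MvPolynomial V K)) : Prop :=
  ∃ rs : List (MvPolynomial V K), (∀ r ∈ rs, ∃ d : ℕ, 0 < d ∧ r.IsHomogeneous d) ∧
    RingTheory.Sequence.IsRegular (MvPolynomial V K ⧸ J) rs ∧
    Module.Finite K (MvPolynomial V K ⧸ (J ⊔ Ideal.ofList rs))

/-- `J` is unmixed: all associated primes of `R/J` have the same height. -/
def Unmixed {V K : Type*} [Field K] (J : Ideal (MvPolynomial V K)) : Prop :=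
  ∀ P ∈ associatedPrimes (MvPolynomial V K) (MvPolynomial V K ⧸ J),
    ∀ Q ∈ associatedPrimes (MvPolynomial V K) (MvPolynomial V K ⧸ J), P.height = Q.height

/-! ### The graph -/

/-- weights: vertices `0,1,2` are `x₁,x₂,x₃`, vertices `3,4,5` are `y₁,y₂,y₃` -/
def w (u v : Fin 6) : ℕ :=
  match u.1, v.1 with
  | 0, 1 => 1
  | 1, 0 => 1
  | 1, 2 => 1
  | 2, 1 => 1
  | 0, 3 => 2
  | 3, 0 => 2
  | 1, 4 => 2
  | 4, 1 => 2
  | 2, 5 => 2
  | 5, 2 => 2
  | _, _ => 0

lemma w_symm : ∀ u v, w u v = w v u := by decide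

/-- the weight function -/
def ω : Sym2 (Fin 6) → ℕ := Sym2.lift ⟨w, w_symm⟩

/-- the graph -/
def G : SimpleGraph (Fin 6) where
  Adj u v := w u v ≠ 0
  symm := ⟨fun u v h => by rwa [w_symm]⟩
  loopless := ⟨by decide⟩

instance : DecidableRel G.Adj := fun u v => inferInstanceAs (Decidable (w u v ≠ 0))

lemma vwc_aux : ∀ S : Finset (Fin 6), (∀ u ∈ S, ∀ v ∈ S, ¬ G.Adj u v) →
    (∀ x, x ∉ S → ∃ u ∈ S, G.Adj u x) → 2 * S.card = 6 := by decide

lemma vwc : VeryWellCovered G where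
  no_isolated := by decide
  even := by decide
  card_eq S hS := by
    rw [Fintype.card_fin]
    apply vwc_aux S hS.1
    intro x hx
    by_contra h
    push Not at h
    have h1 : ∀ u ∈ insert x S, ∀ v ∈ insert x S, ¬ G.Adj u v := by
      intro u hu v hv
      rw [Finset.mem_insert] at hu hv
      rcases hu with rfl | hu <;> rcases hv with rfl | hv
      · exact G.loopless.irrefl _
      · exact fun h' => h v hv h'.symm
      · exact h u hu
      · exact hS.1 u hu v hv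
    have h2 := hS.2 h1 (Finset.subset_insert x S)
    exact hx (h2 (Finset.mem_insert_self x S))

/-! ### Exponent vectors -/

/-- exponent vectors -/
abbrev T6 := ℕ × ℕ × ℕ × ℕ × ℕ × ℕ

/-- the corresponding finitely supported function -/
noncomputable def toF (g : T6) : Fin 6 →₀ ℕ :=
  Finsupp.equivFunOnFinite.symm ![g.1, g.2.1, g.2.2.1, g.2.2.2.1, g.2.2.2.2.1, g.2.2.2.2.2]

/-- comparison -/
def le6 (g h : T6) : Bool :=
  Nat.ble g.1 h.1 && Nat.ble g.2.1 h.2.1 && Nat.ble g.2.2.1 h.2.2.1 &&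
    Nat.ble g.2.2.2.1 h.2.2.2.1 && Nat.ble g.2.2.2.2.1 h.2.2.2.2.1 &&
    Nat.ble g.2.2.2.2.2 h.2.2.2.2.2

/-- sum -/
def add6 (g h : T6) : T6 :=
  (g.1 + h.1, g.2.1 + h.2.1, g.2.2.1 + h.2.2.1, g.2.2.2.1 + h.2.2.2.1,
    g.2.2.2.2.1 + h.2.2.2.2.1, g.2.2.2.2.2 + h.2.2.2.2.2)

/-- maximum -/
def max6 (g h : T6) : T6 :=
  (max g.1 h.1, max g.2.1 h.2.1, max g.2.2.1 h.2.2.1, max g.2.2.2.1 h.2.2.2.1,
    max g.2.2.2.2.1 h.2.2.2.2.1, max g.2.2.2.2.2 h.2.2.2.2.2)

/-- unit vectors -/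
def e6 (i : Fin 6) : T6 :=
  match i.1 with
  | 0 => (1, 0, 0, 0, 0, 0)
  | 1 => (0, 1, 0, 0, 0, 0)
  | 2 => (0, 0, 1, 0, 0, 0)
  | 3 => (0, 0, 0, 1, 0, 0)
  | 4 => (0, 0, 0, 0, 1, 0)
  | _ => (0, 0, 0, 0, 0, 1)

/-- truncated difference -/
def sub6 (g h : T6) : T6 :=
  (g.1 - h.1, g.2.1 - h.2.1, g.2.2.1 - h.2.2.1, g.2.2.2.1 - h.2.2.2.1,
    g.2.2.2.2.1 - h.2.2.2.2.1, g.2.2.2.2.2 - h.2.2.2.2.2)

lemma toF_add (g h : T6) : toF (add6 g h) = toF g + toF h := by
  ext i
  fin_cases i <;> simp [toF, add6]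

lemma toF_e6 (i : Fin 6) : toF (e6 i) = Finsupp.single i 1 := by
  ext j
  fin_cases i <;> fin_cases j <;> simp [toF, e6]

lemma le6_iff (g h : T6) : le6 g h = true ↔ toF g ≤ toF h := by
  constructor
  · intro hh i
    simp only [le6, Bool.and_eq_true, Nat.ble_eq] at hh
    obtain ⟨⟨⟨⟨⟨h0, h1⟩, h2⟩, h3⟩, h4⟩, h5⟩ := hh
    fin_cases i <;> simp [toF] <;> assumption
  · intro hh
    have h0 := hh 0
    have h1 := hh 1
    have h2 := hh 2
    have h3 := hh 3
    have h4 := hh 4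
    have h5 := hh 5
    simp [toF] at h0 h1 h2 h3 h4 h5
    simp only [le6, Bool.and_eq_true, Nat.ble_eq]
    exact ⟨⟨⟨⟨⟨h0, h1⟩, h2⟩, h3⟩, h4⟩, h5⟩

/-- the set of exponents of a list -/
def SL (L : List T6) : Set (Fin 6 →₀ ℕ) := {s | ∃ g ∈ L, toF g = s}

/-- the colon condition for the variables `i`, `j` -/
def chk (L : List T6) (i j : Fin 6) : Bool :=
  L.all fun g => L.all fun h => L.any fun k => le6 k (max6 (sub6 g (e6 i)) (sub6 h (e6 j)))

lemma toF_max_le {g h : T6} {u : Fin 6 →₀ ℕ} (hg : toF g ≤ u) (hh : toF h ≤ u) :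
    toF (max6 g h) ≤ u := by
  intro x
  have h1 := hg x
  have h2 := hh x
  fin_cases x <;> simp [toF, max6] at h1 h2 ⊢ <;> exact ⟨h1, h2⟩

lemma toF_sub_le {g h : T6} {u : Fin 6 →₀ ℕ} (hg : toF g ≤ u + toF h) : toF (sub6 g h) ≤ u := by
  intro x
  have h1 := hg x
  fin_cases x <;> simp [toF, sub6] at h1 ⊢ <;> omega

lemma colon_of_chk {L : List T6} {i j : Fin 6} (hc : chk L i j = true) :
    ∀ u, Up (SL L) (u + Finsupp.single i 1) → Up (SL L) (u + Finsupp.single j 1) →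
      Up (SL L) u := by
  rintro u ⟨_, ⟨g, hg, rfl⟩, hgu⟩ ⟨_, ⟨h, hh, rfl⟩, hhu⟩
  rw [chk, List.all_eq_true] at hc
  have h1 := hc g hg
  rw [List.all_eq_true] at h1
  have h2 := h1 h hh
  rw [List.any_eq_true] at h2
  obtain ⟨k, hk, hle⟩ := h2
  rw [le6_iff] at hle
  refine ⟨_, ⟨k, hk, rfl⟩, hle.trans ?_⟩
  rw [← toF_e6] at hgu hhu
  exact toF_max_le (toF_sub_le hgu) (toF_sub_le hhu)

/-- check that the sums of pairs from `L` and the elements of `M` generate the same ideal -/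
def chkMul (L M : List T6) : Bool :=
  (L.all fun g => L.all fun h => M.any fun k => le6 k (add6 g h)) &&
    (M.all fun k => L.any fun g => L.any fun h => le6 (add6 g h) k)

lemma mI_mul {K : Type*} [Field K] {L M : List T6} (hc : chkMul L M = true) :
    mI K (SL L) * mI K (SL L) = mI K (SL M) := by
  rw [chkMul, Bool.and_eq_true] at hc
  obtain ⟨h1, h2⟩ := hc
  apply le_antisymm
  · rw [mI, Ideal.span_mul_span', Ideal.span_le]
    rintro _ ⟨_, ⟨_, ⟨g, hg, rfl⟩, rfl⟩, _, ⟨_, ⟨h, hh, rfl⟩, rfl⟩, rfl⟩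
    simp only [monomial_mul, mul_one]
    apply mono_mem_mI
    rw [List.all_eq_true] at h1
    have h3 := h1 g hg
    rw [List.all_eq_true] at h3
    have h4 := h3 h hh
    rw [List.any_eq_true] at h4
    obtain ⟨k, hk, hle⟩ := h4
    rw [le6_iff, toF_add] at hle
    exact ⟨_, ⟨k, hk, rfl⟩, hle⟩
  · rw [mI, mI, Ideal.span_le]
    rintro _ ⟨_, ⟨k, hk, rfl⟩, rfl⟩
    rw [List.all_eq_true] at h2
    have h3 := h2 k hk
    rw [List.any_eq_true] at h3
    obtain ⟨g, hg, h4⟩ := h3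
    rw [List.any_eq_true] at h4
    obtain ⟨h, hh, hle⟩ := h4
    rw [le6_iff, toF_add] at hle
    have h5 : monomial (toF k) (1 : K) =
        monomial (toF k - (toF g + toF h)) 1 * (monomial (toF g) 1 * monomial (toF h) 1) := by
      rw [monomial_mul, monomial_mul, one_mul, one_mul, tsub_add_cancel_of_le hle]
    simp only [SetLike.mem_coe]
    rw [h5]
    exact Ideal.mul_mem_left _ _ (Ideal.mul_mem_mul (Ideal.subset_span ⟨_, ⟨g, hg, rfl⟩, rfl⟩)
      (Ideal.subset_span ⟨_, ⟨h, hh, rfl⟩, rfl⟩))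

/-- exponents of the generators of `I` -/
def L1 : List T6 := [(2, 0, 0, 2, 0, 0), (0, 2, 0, 0, 2, 0), (0, 0, 2, 0, 0, 2),
  (1, 1, 0, 0, 0, 0), (0, 1, 1, 0, 0, 0)]

/-- exponents of the generators of `I²` -/
def M2 : List T6 := [(0, 0, 4, 0, 0, 4), (0, 1, 3, 0, 0, 2), (0, 2, 2, 0, 0, 0),
  (0, 3, 1, 0, 2, 0), (0, 4, 0, 0, 4, 0), (1, 1, 2, 0, 0, 2), (1, 2, 1, 0, 0, 0),
  (1, 3, 0, 0, 2, 0), (2, 0, 2, 2, 0, 2), (2, 1, 1, 2, 0, 0), (2, 2, 0, 0, 0, 0),
  (3, 1, 0, 2, 0, 0), (4, 0, 0, 4, 0, 0)]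

/-- exponents of the generators of `I⁴` -/
def M4 : List T6 := [(0, 0, 8, 0, 0, 8), (0, 1, 7, 0, 0, 6), (0, 2, 6, 0, 0, 4),
  (0, 3, 5, 0, 0, 2), (0, 4, 4, 0, 0, 0), (0, 5, 3, 0, 2, 0), (0, 6, 2, 0, 4, 0),
  (0, 7, 1, 0, 6, 0), (0, 8, 0, 0, 8, 0), (1, 1, 6, 0, 0, 6), (1, 2, 5, 0, 0, 4),
  (1, 3, 4, 0, 0, 2), (1, 4, 3, 0, 0, 0), (1, 5, 2, 0, 2, 0), (1, 6, 1, 0, 4, 0),
  (1, 7, 0, 0, 6, 0), (2, 0, 6, 2, 0, 6), (2, 1, 5, 2, 0, 4), (2, 2, 4, 0, 0, 4),
  (2, 2, 4, 2, 0, 2), (2, 3, 3, 0, 0, 2), (2, 3, 3, 2, 0, 0), (2, 4, 2, 0, 0, 0),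
  (2, 5, 1, 0, 2, 0), (2, 6, 0, 0, 4, 0), (3, 1, 4, 2, 0, 4), (3, 2, 3, 2, 0, 2),
  (3, 3, 2, 0, 0, 2), (3, 3, 2, 2, 0, 0), (3, 4, 1, 0, 0, 0), (3, 5, 0, 0, 2, 0),
  (4, 0, 4, 4, 0, 4), (4, 1, 3, 4, 0, 2), (4, 2, 2, 2, 0, 2), (4, 2, 2, 4, 0, 0),
  (4, 3, 1, 2, 0, 0), (4, 4, 0, 0, 0, 0), (5, 1, 2, 4, 0, 2), (5, 2, 1, 4, 0, 0),
  (5, 3, 0, 2, 0, 0), (6, 0, 2, 6, 0, 2), (6, 1, 1, 6, 0, 0), (6, 2, 0, 4, 0, 0),
  (7, 1, 0, 6, 0, 0), (8, 0, 0, 8, 0, 0)]

/-- substitute `y₁ = x₁` -/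
def s1 (g : T6) : T6 := (g.1 + g.2.2.2.1, g.2.1, g.2.2.1, 0, g.2.2.2.2.1, g.2.2.2.2.2)

/-- substitute `y₁ = x₁`, `y₂ = x₂` -/
def s2 (g : T6) : T6 := (g.1 + g.2.2.2.1, g.2.1 + g.2.2.2.2.1, g.2.2.1, 0, 0, g.2.2.2.2.2)

lemma c12 : chkMul L1 M2 = true := by decide
lemma c24 : chkMul M2 M4 = true := by decide +kernel
lemma c4_0 : chk M4 0 3 = true := by decide +kernel
lemma c4_1 : chk M4 1 4 = true := by decide +kernel
lemma c4_2 : chk M4 2 5 = true := by decide +kernel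
lemma c4_s1 : chk (M4.map s1) 1 4 = true := by decide +kernel
lemma c2_0 : chk M2 0 3 = true := by decide +kernel
lemma c2_s1 : chk (M2.map s1) 1 4 = true := by decide +kernel
lemma c2_s2 : chk (M2.map s2) 2 5 = true := by decide +kernel

/-! ### The ideals -/

section ideal

variable (K : Type*) [Field K]

/-- the polynomial ring -/
abbrev RR := MvPolynomial (Fin 6) K

lemma mono_toF (g : T6) : (monomial (toF g) 1 : RR K) =
    X 0 ^ g.1 * X 1 ^ g.2.1 * X 2 ^ g.2.2.1 * X 3 ^ g.2.2.2.1 * X 4 ^ g.2.2.2.2.1 *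
      X 5 ^ g.2.2.2.2.2 := by
  rw [monomial_eq, map_one, one_mul, Finsupp.prod_fintype _ _ (fun i => pow_zero _),
    Fin.prod_univ_six]
  simp [toF]

lemma wideal_eq : wideal K G ω = mI K (SL L1) := by
  apply le_antisymm
  · rw [wideal, Ideal.span_le]
    rintro f ⟨u, v, huv, rfl⟩
    have key : ∀ g ∈ L1, (monomial (toF g) (1 : K)) ∈ mI K (SL L1) := fun g hg =>
      Ideal.subset_span ⟨_, ⟨g, hg, rfl⟩, rfl⟩
    have k1 := key (2, 0, 0, 2, 0, 0) (by decide)
    have k2 := key (0, 2, 0, 0, 2, 0) (by decide)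
    have k3 := key (0, 0, 2, 0, 0, 2) (by decide)
    have k4 := key (1, 1, 0, 0, 0, 0) (by decide)
    have k5 := key (0, 1, 1, 0, 0, 0) (by decide)
    rw [mono_toF] at k1 k2 k3 k4 k5
    have hw : ω s(u, v) = w u v := rfl
    rw [SetLike.mem_coe, hw]
    fin_cases u <;> fin_cases v <;>
      first
      | (exfalso; revert huv; decide)
      | (simp only [w]; convert k1 using 1; simp; ring; done)
      | (simp only [w]; convert k2 using 1; simp; ring; done)
      | (simp only [w]; convert k3 using 1; simp; ring; done)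
      | (simp only [w]; convert k4 using 1; simp; done)
      | (simp only [w]; convert k4 using 1; simp; ring; done)
      | (simp only [w]; convert k5 using 1; simp; done)
      | (simp only [w]; convert k5 using 1; simp; ring; done)
  · rw [mI, Ideal.span_le]
    rintro _ ⟨_, ⟨g, hg, rfl⟩, rfl⟩
    simp only [SetLike.mem_coe]
    rw [mono_toF]
    have key : ∀ u v : Fin 6, G.Adj u v → ((X u * X v) ^ w u v : RR K) ∈ wideal K G ω :=
      fun u v h => Ideal.subset_span ⟨u, v, h, rfl⟩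
    simp only [L1, List.mem_cons, List.not_mem_nil, or_false] at hg
    rcases hg with rfl | rfl | rfl | rfl | rfl
    · convert key 0 3 (by decide) using 1
      simp [w]
      ring
    · convert key 1 4 (by decide) using 1
      simp [w]
      ring
    · convert key 2 5 (by decide) using 1
      simp [w]
      ring
    · convert key 0 1 (by decide) using 1
      simp [w]
    · convert key 1 2 (by decide) using 1
      simp [w]

lemma sq_eq : (wideal K G ω) ^ 2 = mI K (SL M2) := by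
  rw [pow_two, wideal_eq]
  exact mI_mul c12

lemma pow4_eq : (wideal K G ω) ^ 4 = mI K (SL M4) := by
  rw [show 4 = 2 * 2 by rfl, pow_mul, sq_eq, pow_two]
  exact mI_mul c24

/-- substitution `y₁ = x₁` -/
noncomputable def ph1 : RR K →ₐ[K] RR K := aeval ![X 0, X 1, X 2, X 0, X 4, X 5]

/-- substitution `y₁ = x₁, y₂ = x₂` -/
noncomputable def ph2 : RR K →ₐ[K] RR K := aeval ![X 0, X 1, X 2, X 0, X 1, X 5]

lemma ph1_mono (g : T6) : ph1 K (monomial (toF g) 1) = monomial (toF (s1 g)) 1 := by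
  rw [mono_toF, mono_toF]
  simp only [ph1, s1, map_mul, map_pow, aeval_X]
  simp
  ring

lemma ph2_mono (g : T6) : ph2 K (monomial (toF g) 1) = monomial (toF (s2 g)) 1 := by
  rw [mono_toF, mono_toF]
  simp only [ph2, s2, map_mul, map_pow, aeval_X]
  simp
  ring

variable {K}

lemma sub_mem_of_X {A : Ideal (RR K)} {Φ : RR K →ₐ[K] RR K} (h : ∀ i, X i - Φ (X i) ∈ A)
    (f : RR K) : f - Φ f ∈ A := by
  have h1 : (Ideal.Quotient.mkₐ K A).comp Φ = Ideal.Quotient.mkₐ K A := by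
    apply algHom_ext
    intro i
    rw [AlgHom.comp_apply]
    exact (Ideal.Quotient.eq.2 (h i)).symm
  have h2 := DFunLike.congr_fun h1 f
  exact Ideal.Quotient.eq.1 h2.symm

lemma nz_sub {A B : Ideal (RR K)} {Φ : RR K →ₐ[K] RR K} {θ : RR K}
    (h : ∀ i, X i - Φ (X i) ∈ A) (h2 : A ≤ B.comap Φ) (h3 : B ≤ A) (hθ : Φ θ = θ)
    (hn : NZ B θ) : NZ A θ := by
  intro f hf
  have h4 := h2 hf
  rw [Ideal.mem_comap, map_mul, hθ] at h4
  have h5 := h3 (hn _ h4)
  have h6 := A.add_mem (sub_mem_of_X h f) h5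
  simpa using h6

lemma sub_le {M : List T6} {A : Ideal (RR K)} {Φ : RR K →ₐ[K] RR K} {s : T6 → T6}
    (hs : ∀ g, Φ (monomial (toF g) 1) = monomial (toF (s g)) 1)
    (h : ∀ i, X i - Φ (X i) ∈ A) (hM : mI K (SL M) ≤ A) : mI K (SL (M.map s)) ≤ A := by
  rw [mI, Ideal.span_le]
  rintro _ ⟨_, ⟨g, hg, rfl⟩, rfl⟩
  obtain ⟨g', hg', rfl⟩ := List.mem_map.1 hg
  simp only [SetLike.mem_coe]
  rw [← hs]
  have h1 : (monomial (toF g') (1 : K)) ∈ A := hM (Ideal.subset_span ⟨_, ⟨g', hg', rfl⟩, rfl⟩)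
  have h2 := A.sub_mem h1 (sub_mem_of_X h (monomial (toF g') 1))
  simpa using h2

lemma le_comap {M : List T6} {Φ : RR K →ₐ[K] RR K} {s : T6 → T6}
    (hs : ∀ g, Φ (monomial (toF g) 1) = monomial (toF (s g)) 1) :
    mI K (SL M) ≤ (mI K (SL (M.map s))).comap Φ := by
  rw [mI, Ideal.span_le]
  rintro _ ⟨_, ⟨g, hg, rfl⟩, rfl⟩
  simp only [SetLike.mem_coe, Ideal.mem_comap]
  rw [hs]
  exact Ideal.subset_span ⟨_, ⟨s g, List.mem_map.2 ⟨g, hg, rfl⟩, rfl⟩, rfl⟩

/-- the first substitution step -/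
lemma step1 (M : List T6) {θ : RR K} (hθ : ph1 K θ = θ) (hn : NZ (mI K (SL (M.map s1))) θ) :
    NZ (mI K (SL M) ⊔ Ideal.span {(X 3 - X 0 : RR K)}) θ := by
  have hX : ∀ i, (X i : RR K) - ph1 K (X i) ∈ mI K (SL M) ⊔ Ideal.span {(X 3 - X 0 : RR K)} := by
    intro i
    fin_cases i
    · simp [ph1]
    · simp [ph1]
    · simp [ph1]
    · simp only [ph1, aeval_X]
      exact (le_sup_right : _ ≤ mI K (SL M) ⊔ Ideal.span {(X 3 - X 0 : RR K)})
        (Ideal.subset_span rfl)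
    · simp [ph1]
    · simp [ph1]
  refine nz_sub hX ?_ (sub_le (ph1_mono K) hX le_sup_left) hθ hn
  refine sup_le (le_comap (ph1_mono K)) ?_
  rw [Ideal.span_le, Set.singleton_subset_iff, SetLike.mem_coe, Ideal.mem_comap]
  simp [ph1]

lemma hX2 (M : List T6) (i : Fin 6) : (X i : RR K) - ph2 K (X i) ∈
    mI K (SL M) ⊔ Ideal.span {(X 3 - X 0 : RR K)} ⊔ Ideal.span {(X 4 - X 1 : RR K)} := by
  fin_cases i
  · simp [ph2]
  · simp [ph2]
  · simp [ph2]
  · simp only [ph2, aeval_X]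
    exact (le_sup_left : _ ≤ mI K (SL M) ⊔ Ideal.span {(X 3 - X 0 : RR K)} ⊔
      Ideal.span {(X 4 - X 1 : RR K)})
      ((le_sup_right : _ ≤ mI K (SL M) ⊔ Ideal.span {(X 3 - X 0 : RR K)})
        (Ideal.subset_span rfl))
  · simp only [ph2, aeval_X]
    exact (le_sup_right : _ ≤ mI K (SL M) ⊔ Ideal.span {(X 3 - X 0 : RR K)} ⊔
      Ideal.span {(X 4 - X 1 : RR K)}) (Ideal.subset_span rfl)
  · simp [ph2]

lemma le2 (M : List T6) : mI K (SL M) ⊔ Ideal.span {(X 3 - X 0 : RR K)} ⊔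
    Ideal.span {(X 4 - X 1 : RR K)} ≤ (mI K (SL (M.map s2))).comap (ph2 K) := by
  refine sup_le (sup_le (le_comap (ph2_mono K)) ?_) ?_
  · rw [Ideal.span_le, Set.singleton_subset_iff, SetLike.mem_coe, Ideal.mem_comap]
    simp [ph2]
  · rw [Ideal.span_le, Set.singleton_subset_iff, SetLike.mem_coe, Ideal.mem_comap]
    simp [ph2]

/-- the second substitution step -/
lemma step2 (M : List T6) {θ : RR K} (hθ : ph2 K θ = θ) (hn : NZ (mI K (SL (M.map s2))) θ) :
    NZ (mI K (SL M) ⊔ Ideal.span {(X 3 - X 0 : RR K)} ⊔ Ideal.span {(X 4 - X 1 : RR K)}) θ :=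
  nz_sub (hX2 M) (le2 M) (sub_le (ph2_mono K) (hX2 M) (le_sup_left.trans le_sup_left)) hθ hn

/-- a monomial order -/
noncomputable def mo : MonomialOrder (Fin 6) := MonomialOrder.lex

/-- the ideal of all variables -/
noncomputable def mm (K : Type*) [Field K] : Ideal (RR K) :=
  Ideal.span (X '' ((Finset.univ : Finset (Fin 6)) : Set (Fin 6)))

lemma X_mem_mm (i : Fin 6) : (X i : RR K) ∈ mm K := Ideal.subset_span ⟨i, by simp, rfl⟩

lemma mem_mm_iff (f : RR K) : f ∈ mm K ↔ ∀ d ∈ f.support, ∃ i, d i ≠ 0 := by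
  rw [mm, mem_ideal_span_X_image]
  simp

lemma hom_mem_mm {f : RR K} {d : ℕ} (hd : 0 < d) (hf : f.IsHomogeneous d) : f ∈ mm K := by
  rw [mem_mm_iff]
  intro e he
  by_contra h
  push Not at h
  have h1 : e = 0 := by
    ext i
    simp [h i]
  have h2 := hf (mem_support_iff.1 he)
  rw [h1] at h2
  simp at h2
  omega

lemma mI_le_mm {M : List T6} (h : M.all (fun g => g ≠ (0, 0, 0, 0, 0, 0)) = true) :
    mI K (SL M) ≤ mm K := by
  rw [mI, Ideal.span_le]
  rintro _ ⟨_, ⟨g, hg, rfl⟩, rfl⟩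
  rw [SetLike.mem_coe, mem_mm_iff]
  intro d hd
  have h1 := support_monomial_subset hd
  rw [Finset.mem_singleton] at h1
  subst h1
  by_contra hcon
  push Not at hcon
  rw [List.all_eq_true] at h
  have h2 := h g hg
  simp only [decide_not, Bool.not_eq_eq_eq_not, Bool.not_true, decide_eq_false_iff_not] at h2
  apply h2
  have a0 := hcon 0
  have a1 := hcon 1
  have a2 := hcon 2
  have a3 := hcon 3
  have a4 := hcon 4
  have a5 := hcon 5
  simp [toF] at a0 a1 a2 a3 a4 a5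
  obtain ⟨g0, g1, g2, g3, g4, g5⟩ := g
  simp_all

/-! ### Unmixedness of the fourth power -/

lemma nz_var {M : List T6} {i j : Fin 6} (hij : i ≠ j) (hc : chk M i j = true) :
    NZ (mI K (SL M)) (X j - X i : RR K) :=
  nz_of_colon mo hij (colon_of_chk hc)

lemma not_both {M : List T6} {i j : Fin 6} (hij : i ≠ j) (hc : chk M i j = true)
    {P : Ideal (RR K)} (hP : IsAssociatedPrime P (RR K ⧸ mI K (SL M)))
    (hi : (X i : RR K) ∈ P) (hj : (X j : RR K) ∈ P) : False := by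
  have h1 : (X j - X i : RR K) ∈ P := P.sub_mem hj hi
  have hn := nz_var (K := K) hij hc
  have h2 : (X j - X i : RR K) ∈ ⋃ p ∈ associatedPrimes (RR K) (RR K ⧸ mI K (SL M)),
      (p : Set (RR K)) := by
    simp only [Set.mem_iUnion]
    exact ⟨P, hP, h1⟩
  rw [biUnion_associatedPrimes_eq_zero_divisors] at h2
  exact nz_iff.1 hn h2

lemma le_of_ass {J P : Ideal (RR K)} (hP : IsAssociatedPrime P (RR K ⧸ J)) : J ≤ P := by
  obtain ⟨_, x, hx⟩ := hP
  obtain ⟨a, rfl⟩ := Ideal.Quotient.mk_surjective x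
  intro f hf
  rw [hx]
  apply Ideal.le_radical
  rw [mem_ann_iff]
  exact Ideal.mul_mem_right _ _ hf

lemma pair_mem {M : List T6} {P : Ideal (RR K)} (hP : IsAssociatedPrime P (RR K ⧸ mI K (SL M)))
    {i j : Fin 6} {k : ℕ} {g : T6} (hg : g ∈ M)
    (he : (monomial (toF g) (1 : K)) = X i ^ k * X j ^ k) : (X i : RR K) ∈ P ∨ (X j : RR K) ∈ P := by
  have h1 : (monomial (toF g) (1 : K)) ∈ P :=
    le_of_ass hP (Ideal.subset_span ⟨_, ⟨g, hg, rfl⟩, rfl⟩)
  rw [he] at h1
  rcases hP.isPrime.mem_or_mem h1 with h | h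
  · exact Or.inl (hP.isPrime.mem_of_pow_mem _ h)
  · exact Or.inr (hP.isPrime.mem_of_pow_mem _ h)

lemma height_ass {P : Ideal (RR K)} (hP : IsAssociatedPrime P (RR K ⧸ mI K (SL M4))) :
    P.height = 3 := by
  classical
  have h0 : (X 0 : RR K) ∈ P ∨ (X 3 : RR K) ∈ P :=
    pair_mem hP (k := 8) (g := (8, 0, 0, 8, 0, 0)) (by decide) (by rw [mono_toF]; simp)
  have h1 : (X 1 : RR K) ∈ P ∨ (X 4 : RR K) ∈ P :=
    pair_mem hP (k := 8) (g := (0, 8, 0, 0, 8, 0)) (by decide) (by rw [mono_toF]; simp)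
  have h2 : (X 2 : RR K) ∈ P ∨ (X 5 : RR K) ∈ P :=
    pair_mem hP (k := 8) (g := (0, 0, 8, 0, 0, 8)) (by decide) (by rw [mono_toF]; simp)
  have n0 : (X 0 : RR K) ∈ P → (X 3 : RR K) ∉ P := fun a b =>
    not_both (by decide) c4_0 hP a b
  have n1 : (X 1 : RR K) ∈ P → (X 4 : RR K) ∉ P := fun a b =>
    not_both (by decide) c4_1 hP a b
  have n2 : (X 2 : RR K) ∈ P → (X 5 : RR K) ∉ P := fun a b =>
    not_both (by decide) c4_2 hP a b
  have h := ass_eq_span mo hP
  set s : Finset (Fin 6) := Finset.univ.filter (fun i => (X i : RR K) ∈ P) with hs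
  have hs' : (s : Set (Fin 6)) = {i | (X i : RR K) ∈ P} := by
    ext i
    simp [hs]
  rw [← hs'] at h
  rw [h, height_eq]
  have hcard : s.card = 3 := by
    rw [hs, Finset.card_filter]
    simp only [Fin.sum_univ_six]
    rcases h0 with a0 | a0 <;> rcases h1 with a1 | a1 <;> rcases h2 with a2 | a2
    · simp [a0, a1, a2, n0 a0, n1 a1, n2 a2]
    · have b2 : (X 2 : RR K) ∉ P := fun h => n2 h a2
      simp [a0, a1, a2, n0 a0, n1 a1, b2]
    · have b1 : (X 1 : RR K) ∉ P := fun h => n1 h a1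
      simp [a0, a1, a2, n0 a0, b1, n2 a2]
    · have b1 : (X 1 : RR K) ∉ P := fun h => n1 h a1
      have b2 : (X 2 : RR K) ∉ P := fun h => n2 h a2
      simp [a0, a1, a2, n0 a0, b1, b2]
    · have b0 : (X 0 : RR K) ∉ P := fun h => n0 h a0
      simp [a0, a1, a2, b0, n1 a1, n2 a2]
    · have b0 : (X 0 : RR K) ∉ P := fun h => n0 h a0
      have b2 : (X 2 : RR K) ∉ P := fun h => n2 h a2
      simp [a0, a1, a2, b0, n1 a1, b2]
    · have b0 : (X 0 : RR K) ∉ P := fun h => n0 h a0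
      have b1 : (X 1 : RR K) ∉ P := fun h => n1 h a1
      simp [a0, a1, a2, b0, b1, n2 a2]
    · have b0 : (X 0 : RR K) ∉ P := fun h => n0 h a0
      have b1 : (X 1 : RR K) ∉ P := fun h => n1 h a1
      have b2 : (X 2 : RR K) ∉ P := fun h => n2 h a2
      simp [a0, a1, a2, b0, b1, b2]
  rw [hcard]
  rfl

variable (K) in
theorem unmixed4 : Unmixed ((wideal K G ω) ^ 4) := by
  rw [pow4_eq]
  intro P hP Q hQ
  rw [height_ass hP, height_ass hQ]

/-! ### The square is Cohen-Macaulay -/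

lemma ofList_pair (a b : RR K) : Ideal.ofList [a, b] = Ideal.span {a} ⊔ Ideal.span {b} := by
  rw [Ideal.ofList_cons, Ideal.ofList_singleton]

lemma integral_of_pow {A : Ideal (RR K)} (h : ∀ i, (X i : RR K) ^ 8 ∈ A) :
    Module.Finite K (RR K ⧸ A) := by
  have h1 : Algebra.IsIntegral K (RR K ⧸ A) := by
    constructor
    intro x
    obtain ⟨f, rfl⟩ := Ideal.Quotient.mk_surjective x
    induction f using MvPolynomial.induction_on with
    | C a => exact isIntegral_algebraMap (R := K) (A := RR K ⧸ A) (x := a)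
    | add p q hp hq =>
      rw [map_add]
      exact hp.add hq
    | mul_X p i hp =>
      rw [map_mul]
      refine hp.mul ?_
      apply IsIntegral.of_pow (n := 8) (by norm_num)
      rw [← map_pow, Ideal.Quotient.eq_zero_iff_mem.2 (h i)]
      exact isIntegral_zero
  exact Algebra.IsIntegral.finite

lemma finite2 : Module.Finite K (RR K ⧸ (mI K (SL M2) ⊔
    Ideal.ofList [(X 3 - X 0 : RR K), X 4 - X 1, X 5 - X 2])) := by
  apply integral_of_pow
  set A := mI K (SL M2) ⊔ Ideal.ofList [(X 3 - X 0 : RR K), X 4 - X 1, X 5 - X 2] with hA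
  have hT : ∀ t ∈ [(X 3 - X 0 : RR K), X 4 - X 1, X 5 - X 2], t ∈ A := fun t ht =>
    (le_sup_right : _ ≤ A) (Ideal.subset_span ht)
  have t0 : (X 3 - X 0 : RR K) ∈ A := hT _ (by simp)
  have t1 : (X 4 - X 1 : RR K) ∈ A := hT _ (by simp)
  have t2 : (X 5 - X 2 : RR K) ∈ A := hT _ (by simp)
  have hM : ∀ g ∈ M2, (monomial (toF g) (1 : K)) ∈ A := fun g hg =>
    (le_sup_left : _ ≤ A) (Ideal.subset_span ⟨_, ⟨g, hg, rfl⟩, rfl⟩)
  have m0 := hM (4, 0, 0, 4, 0, 0) (by decide)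
  have m1 := hM (0, 4, 0, 0, 4, 0) (by decide)
  have m2 := hM (0, 0, 4, 0, 0, 4) (by decide)
  rw [mono_toF] at m0 m1 m2
  have key : ∀ a b : RR K, b - a ∈ A → a ^ 4 * b ^ 4 ∈ A → a ^ 8 ∈ A ∧ b ^ 8 ∈ A := by
    intro a b hba hab
    have hd : b - a ∣ b ^ 4 - a ^ 4 := sub_dvd_pow_sub_pow b a 4
    have h4 : b ^ 4 - a ^ 4 ∈ A := A.mem_of_dvd hd hba
    constructor
    · have : a ^ 8 = a ^ 4 * b ^ 4 - a ^ 4 * (b ^ 4 - a ^ 4) := by ring
      rw [this]
      exact A.sub_mem hab (A.mul_mem_left _ h4)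
    · have : b ^ 8 = a ^ 4 * b ^ 4 + b ^ 4 * (b ^ 4 - a ^ 4) := by ring
      rw [this]
      exact A.add_mem hab (A.mul_mem_left _ h4)
  have k0 := key (X 0) (X 3) t0 (by simpa using m0)
  have k1 := key (X 1) (X 4) t1 (by simpa using m1)
  have k2 := key (X 2) (X 5) t2 (by simpa using m2)
  intro i
  fin_cases i
  · exact k0.1
  · exact k1.1
  · exact k2.1
  · exact k0.2
  · exact k1.2
  · exact k2.2

variable (K) in
theorem cm2 : IsCM ((wideal K G ω) ^ 2) := by
  rw [sq_eq]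
  refine ⟨[X 3 - X 0, X 4 - X 1, X 5 - X 2], ?_, ?_, finite2⟩
  · intro r hr
    refine ⟨1, one_pos, ?_⟩
    simp only [List.mem_cons, List.not_mem_nil, or_false] at hr
    rcases hr with rfl | rfl | rfl
    · exact (isHomogeneous_X K 3).sub (isHomogeneous_X K 0)
    · exact (isHomogeneous_X K 4).sub (isHomogeneous_X K 1)
    · exact (isHomogeneous_X K 5).sub (isHomogeneous_X K 2)
  · refine ⟨?_, ?_⟩
    · rw [wr_iff]
      intro i hi
      simp only [List.length_cons, List.length_nil] at hi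
      interval_cases i
      · simp only [List.take_zero, Ideal.ofList_nil, sup_bot_eq]
        exact nz_var (by decide) c2_0
      · have h1 : NZ (mI K (SL M2) ⊔ Ideal.span {(X 3 - X 0 : RR K)}) (X 4 - X 1) :=
          step1 M2 (by simp [ph1]) (nz_var (by decide) c2_s1)
        simpa using h1
      · have h2 : NZ (mI K (SL M2) ⊔ Ideal.span {(X 3 - X 0 : RR K)} ⊔
            Ideal.span {(X 4 - X 1 : RR K)}) (X 5 - X 2) :=
          step2 M2 (by simp [ph2]) (nz_var (by decide) c2_s2)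
        rw [sup_assoc, ← ofList_pair] at h2
        exact h2
    · intro h
      have h1 : (Ideal.Quotient.mk (mI K (SL M2)) 1) ∈
          (Ideal.ofList [(X 3 - X 0 : RR K), X 4 - X 1, X 5 - X 2] •
            (⊤ : Submodule (RR K) (RR K ⧸ mI K (SL M2)))) := by
        rw [← h]
        trivial
      rw [mk_mem_smul_top] at h1
      have h2 : mI K (SL M2) ⊔ Ideal.ofList [(X 3 - X 0 : RR K), X 4 - X 1, X 5 - X 2] ≤
          mm K := by
        refine sup_le (mI_le_mm (by decide)) ?_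
        rw [Ideal.ofList, Ideal.span_le]
        intro r hr
        simp only [List.mem_cons, List.not_mem_nil, or_false, Set.mem_ofPred_eq] at hr
        rcases hr with rfl | rfl | rfl
        · exact Ideal.sub_mem _ (X_mem_mm 3) (X_mem_mm 0)
        · exact Ideal.sub_mem _ (X_mem_mm 4) (X_mem_mm 1)
        · exact Ideal.sub_mem _ (X_mem_mm 5) (X_mem_mm 2)
      exact (span_prime (K := K) _).ne_top ((Ideal.eq_top_iff_one _).2 (h2 h1))

/-! ### The fourth power is not Cohen-Macaulay -/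

lemma up_s2 {g : T6} (h : (M4.map s2).any (fun k => le6 k g) = true) :
    (monomial (toF g) (1 : K)) ∈ mI K (SL (M4.map s2)) := by
  rw [List.any_eq_true] at h
  obtain ⟨k, hk, hle⟩ := h
  rw [le6_iff] at hle
  exact mono_mem_mI ⟨_, ⟨k, hk, rfl⟩, hle⟩

lemma soc4 : Soc (mm K) (mI K (SL M4) ⊔ Ideal.span {(X 3 - X 0 : RR K)} ⊔
    Ideal.span {(X 4 - X 1 : RR K)}) := by
  set A := mI K (SL M4) ⊔ Ideal.span {(X 3 - X 0 : RR K)} ⊔ Ideal.span {(X 4 - X 1 : RR K)} with hA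
  have hB : mI K (SL (M4.map s2)) ≤ A :=
    sub_le (ph2_mono K) (hX2 M4) (le_sup_left.trans le_sup_left)
  refine ⟨monomial (toF (4, 3, 2, 0, 0, 2 - 1)) 1, ?_, ?_⟩
  · intro h
    have h1 := le2 M4 h
    rw [Ideal.mem_comap, ph2_mono] at h1
    obtain ⟨_, ⟨k, hk, rfl⟩, hle⟩ := up_of_mono_mem h1
    rw [← le6_iff] at hle
    have : ∀ k ∈ M4.map s2, le6 k (s2 (4, 3, 2, 0, 0, 2 - 1)) = false := by decide
    rw [this k hk] at hle
    exact absurd hle (by decide)
  · have hv : ∀ i : Fin 6, (X i : RR K) * monomial (toF (4, 3, 2, 0, 0, 2 - 1)) 1 ∈ A := by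
      have e : ∀ i : Fin 6, (X i : RR K) * monomial (toF (4, 3, 2, 0, 0, 2 - 1)) 1 =
          monomial (toF (add6 (e6 i) (4, 3, 2, 0, 0, 2 - 1))) 1 := by
        intro i
        rw [toF_add, toF_e6, X, monomial_mul, one_mul]
      have v0 : (X 0 : RR K) * monomial (toF (4, 3, 2, 0, 0, 2 - 1)) 1 ∈ A := by
        rw [e]
        exact hB (up_s2 (by decide))
      have v1 : (X 1 : RR K) * monomial (toF (4, 3, 2, 0, 0, 2 - 1)) 1 ∈ A := by
        rw [e]
        exact hB (up_s2 (by decide))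
      have v2 : (X 2 : RR K) * monomial (toF (4, 3, 2, 0, 0, 2 - 1)) 1 ∈ A := by
        rw [e]
        exact hB (up_s2 (by decide))
      have v5 : (X 5 : RR K) * monomial (toF (4, 3, 2, 0, 0, 2 - 1)) 1 ∈ A := by
        rw [e]
        exact hB (up_s2 (by decide))
      have t0 : (X 3 - X 0 : RR K) ∈ A :=
        (le_sup_left : _ ≤ A) ((le_sup_right : _ ≤ mI K (SL M4) ⊔ Ideal.span {(X 3 - X 0 : RR K)})
          (Ideal.subset_span rfl))
      have t1 : (X 4 - X 1 : RR K) ∈ A := (le_sup_right : _ ≤ A) (Ideal.subset_span rfl)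
      intro i
      fin_cases i
      · exact v0
      · exact v1
      · exact v2
      · have := A.add_mem (A.mul_mem_right (monomial (toF (4, 3, 2, 0, 0, 2 - 1)) 1) t0) v0
        convert this using 1
        simp
        ring
      · have := A.add_mem (A.mul_mem_right (monomial (toF (4, 3, 2, 0, 0, 2 - 1)) 1) t1) v1
        convert this using 1
        simp
        ring
      · exact v5
    intro r hr
    rw [mm] at hr
    induction hr using Submodule.span_induction with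
    | mem x hx =>
      obtain ⟨i, _, rfl⟩ := hx
      exact hv i
    | zero => simp
    | add x y _ _ hx hy =>
      rw [add_mul]
      exact A.add_mem hx hy
    | smul a x _ hx =>
      rw [smul_eq_mul, mul_assoc]
      exact A.mul_mem_left _ hx

lemma no_regular {rs : List (RR K)} (hm : ∀ r ∈ rs, r ∈ mm K)
    (hreg : RingTheory.Sequence.IsWeaklyRegular (RR K ⧸ mI K (SL M4)) rs) : rs.length ≤ 2 := by
  by_contra hlen
  push Not at hlen
  rw [wr_iff] at hreg
  match rs, hm, hlen, hreg with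
  | a :: b :: c :: l, hm, _, hreg =>
    have g0 := hreg 0 (by simp)
    have g1 := hreg 1 (by simp)
    have g2 := hreg 2 (by simp)
    simp only [List.take_zero, Ideal.ofList_nil, sup_bot_eq, List.getElem_cons_zero] at g0
    simp only [List.take_succ_cons, List.take_zero, Ideal.ofList_singleton,
      List.getElem_cons_succ, List.getElem_cons_zero] at g1
    simp only [List.take_succ_cons, List.take_zero, List.getElem_cons_succ,
      List.getElem_cons_zero] at g2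
    rw [ofList_pair, ← sup_assoc] at g2
    exact no_three (m := mm K) (Ideal.sub_mem _ (X_mem_mm 4) (X_mem_mm 1))
      (nz_var (by decide) c4_0)
      (step1 M4 (by simp [ph1]) (nz_var (by decide) c4_s1)) soc4
      (hm a (by simp)) (hm b (by simp)) (hm c (by simp)) g0 g1 g2
  | [], _, h, _ => simp at h
  | [_], _, h, _ => simp at h
  | [_, _], _, h, _ => simp at h

lemma no_finite {rs : List (RR K)} (hm : ∀ r ∈ rs, r ∈ mm K) (hlen : rs.length ≤ 2)
    (hfin : Module.Finite K (RR K ⧸ (mI K (SL M4) ⊔ Ideal.ofList rs))) : False := by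
  classical
  set s : Finset (RR K) := {X 0, X 1, X 2} ∪ rs.toFinset with hs
  set Q : Ideal (RR K) := Ideal.span (s : Set (RR K)) with hQ
  have hle : mI K (SL M4) ⊔ Ideal.ofList rs ≤ Q := by
    apply sup_le
    · rw [mI, Ideal.span_le]
      rintro _ ⟨_, ⟨g, hg, rfl⟩, rfl⟩
      simp only [SetLike.mem_coe]
      rw [mono_toF]
      have h1 : ∀ g ∈ M4, g.1 ≠ 0 ∨ g.2.1 ≠ 0 ∨ g.2.2.1 ≠ 0 := by decide
      have q0 : (X 0 : RR K) ∈ Q := Ideal.subset_span (by simp [hs])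
      have q1 : (X 1 : RR K) ∈ Q := Ideal.subset_span (by simp [hs])
      have q2 : (X 2 : RR K) ∈ Q := Ideal.subset_span (by simp [hs])
      rcases h1 g hg with h | h | h
      · have := Q.pow_mem_of_mem q0 _ (Nat.pos_of_ne_zero h)
        iterate 5 apply Ideal.mul_mem_right
        exact this
      · have := Q.pow_mem_of_mem q1 _ (Nat.pos_of_ne_zero h)
        iterate 4 apply Ideal.mul_mem_right
        exact Ideal.mul_mem_left _ _ this
      · have := Q.pow_mem_of_mem q2 _ (Nat.pos_of_ne_zero h)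
        iterate 3 apply Ideal.mul_mem_right
        exact Ideal.mul_mem_left _ _ this
    · rw [Ideal.ofList, Ideal.span_le]
      intro r hr
      exact Ideal.subset_span (by simp [hs]; tauto)
  have hQm : Q ≤ mm K := by
    rw [hQ, Ideal.span_le]
    intro r hr
    simp only [hs, Finset.coe_union, Finset.coe_insert, Finset.coe_singleton, Set.mem_union,
      Set.mem_insert_iff, Set.mem_singleton_iff, List.coe_toFinset, Set.mem_ofPred_eq] at hr
    rcases hr with (rfl | rfl | rfl) | hr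
    · exact X_mem_mm 0
    · exact X_mem_mm 1
    · exact X_mem_mm 2
    · exact hm r hr
  have hfinP : ∀ P : Ideal (RR K), Q ≤ P → Module.Finite K (RR K ⧸ P) := by
    intro P hP
    exact Module.Finite.of_surjective
      (Ideal.Quotient.factorₐ K (hle.trans hP)).toLinearMap
      (Ideal.Quotient.factor_surjective (hle.trans hP))
  haveI hmp : (mm K).IsPrime := span_prime _
  have hmin : mm K ∈ Q.minimalPrimes := by
    refine ⟨⟨hmp, hQm⟩, ?_⟩
    rintro P ⟨hP, hQP⟩ hPm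
    haveI := hP
    haveI := hfinP P hQP
    have hmax : P.IsMaximal := by
      haveI : IsArtinianRing (RR K ⧸ P) := IsArtinianRing.of_finite K (RR K ⧸ P)
      exact Ideal.Quotient.maximal_of_isField _ (IsArtinianRing.isField_of_isDomain _)
    exact (hmax.eq_of_le hmp.ne_top hPm).ge
  have h1 := Ideal.height_le_card_of_mem_minimalPrimes_span_finset (s := s) hmin
  have h2 : ((Finset.univ : Finset (Fin 6)).card : ℕ∞) ≤ (mm K).height := le_height _
  rw [Finset.card_univ, Fintype.card_fin] at h2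
  have h3 : s.card ≤ 5 := by
    calc s.card ≤ ({X 0, X 1, X 2} : Finset (RR K)).card + rs.toFinset.card :=
          Finset.card_union_le _ _
      _ ≤ 3 + 2 := add_le_add Finset.card_le_three ((List.toFinset_card_le rs).trans hlen)
  have h4 : ((6 : ℕ) : ℕ∞) ≤ s.card := h2.trans h1
  have h5 : (6 : ℕ) ≤ s.card := by exact_mod_cast h4
  omega

variable (K) in
theorem not_cm4 : ¬ IsCM ((wideal K G ω) ^ 4) := by
  rw [pow4_eq]
  rintro ⟨rs, hhom, hreg, hfin⟩
  have hm : ∀ r ∈ rs, r ∈ mm K := by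
    intro r hr
    obtain ⟨d, hd, hr2⟩ := hhom r hr
    exact hom_mem_mm hd hr2
  exact no_finite hm (no_regular hm hreg.toIsWeaklyRegular) hfin

end ideal

/-- **Disproof of Q1.** There are a very well-covered graph `G` (on six vertices) and positive
weights `ω` such that, over every field `K`, the ideal `I(G_ω)²` is Cohen-Macaulay and
`I(G_ω)⁴` is unmixed, but `I(G_ω)⁴` is not Cohen-Macaulay. -/
theorem result.{u} : ∃ (G : SimpleGraph (Fin 6)) (ω : Sym2 (Fin 6) → ℕ),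
    VeryWellCovered G ∧ (∀ u v, G.Adj u v → 0 < ω s(u, v)) ∧
    ∀ (K : Type u) [Field K], IsCM ((wideal K G ω) ^ 2) ∧ Unmixed ((wideal K G ω) ^ 4) ∧
      ¬ IsCM ((wideal K G ω) ^ 4) :=
  ⟨G, ω, vwc, fun _ _ h => Nat.pos_of_ne_zero h, fun K _ => ⟨cm2 K, unmixed4 K, not_cm4 K⟩⟩

end Pool.Agent.Results.MP_23c7c4_al.UnmixedNotCM
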